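import Pool.Agent.H40E9.LP.Ring

/-!
# Ideals all of whose quotients have good corners
-/

set_option autoImplicit false

namespace Pool.Agent.H40E9.RR

open Pool.Agent.Y110.FJ
open Pool.Agent.Y462.SS (Closed)
open Pool.Agent.H40E9.FK
open Pool.Agent.H40E9.LP

variable {C : ∀ (G : Type) [Group G], Prop}

/-- every finite subset of the ideal `I` is contained in `e A e` for an idempotent `e` in `I` -/
def LocalUnits {A : Type} [Ring A] (I : TwoSidedIdeal A) : Prop :=
  ∀ T : Set A, T.Finite → (∀ t ∈ T, t ∈ I) → ∃ e ∈ I, e * e = e ∧ ∀ t ∈ T, e * t = t ∧ t * e = t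

/-- extensions, for corners -/
theorem ext_corner (hC : ClosedE C) {A B : Type} [Ring A] [Ring B] (π : A →+* B) {e : A}
    (hB : CornerGLs C (π e))
    (h : ∀ T : Set A, T.Finite → (∀ t ∈ T, π t = 0) →
      ∃ e : A, e * e = e ∧ CornerGLs C e ∧ ∀ t ∈ T, e * t = t ∧ t * e = t) : CornerGLs C e := by
  intro n
  have hd : (π.mapMatrix : Matrix (Fin n) (Fin n) A →+* Matrix (Fin n) (Fin n) B) (dg n e) =
      dg n (π e) := by
    rw [RingHom.mapMatrix_apply, Matrix.diagonal_map (map_zero π)]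
  let f : cGL n e →* cGL n (π e) :=
    ((Units.map (π.mapMatrix : Matrix (Fin n) (Fin n) A →+* Matrix (Fin n) (Fin n) B).toMonoidHom).comp
      (cGL n e).subtype).codRestrict (cGL n (π e)) (by
        intro u
        have h1 := congrArg (π.mapMatrix : Matrix (Fin n) (Fin n) A →+* Matrix (Fin n) (Fin n) B)
          u.2.1
        have h2 := congrArg (π.mapMatrix : Matrix (Fin n) (Fin n) A →+* Matrix (Fin n) (Fin n) B)
          u.2.2
        rw [map_mul, hd, map_sub, map_one] at h1 h2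
        exact ⟨h1, h2⟩)
  have hQ : C (cGL n e ⧸ f.ker) :=
    hC.base.of_injective _ _ (QuotientGroup.kerLift f) (QuotientGroup.kerLift_injective f) (hB n)
  refine main hC f.ker hQ fun g _ => ?_
  refine ⟨Matrix (Fin n) (Fin n) A, inferInstance, (cGL n e).subtype.comp f.ker.subtype, g,
    ⟨Subtype.val_injective.comp Subtype.val_injective, fun m => rfl⟩, ?_⟩
  intro E hE
  let T : Set A := (fun q : f.ker × Fin n × Fin n =>
    ((((q.1 : cGL n e) : (Matrix (Fin n) (Fin n) A)ˣ) : Matrix (Fin n) (Fin n) A) - 1) q.2.1 q.2.2) ''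
      (E ×ˢ Set.univ)
  have hT : T.Finite := (hE.prod Set.finite_univ).image _
  obtain ⟨e', he, hCe, hte⟩ := h T hT (by
    rintro _ ⟨⟨u, i, j⟩, _, rfl⟩
    have h1 : f u = 1 := u.2
    have h2 : π.mapMatrix (((u : cGL n e) : (Matrix (Fin n) (Fin n) A)ˣ) :
        Matrix (Fin n) (Fin n) A) = 1 :=
      congrArg (fun x : cGL n (π e) => ((x : (Matrix (Fin n) (Fin n) B)ˣ) :
        Matrix (Fin n) (Fin n) B)) h1
    have h3 : π.mapMatrix ((((u : cGL n e) : (Matrix (Fin n) (Fin n) A)ˣ) :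
        Matrix (Fin n) (Fin n) A) - 1) = 0 := by
      rw [map_sub, h2, map_one, sub_self]
    exact congrFun (congrFun h3 i) j)
  refine ⟨dg n e', ?_, C_two hC.base he hCe n, ?_⟩
  · rw [Matrix.diagonal_mul_diagonal]
    simp_rw [he]
  · intro u hu
    refine ⟨?_, ?_⟩
    · ext i j
      rw [Matrix.diagonal_mul]
      exact (hte _ ⟨(u, i, j), ⟨hu, Set.mem_univ _⟩, rfl⟩).1
    · ext i j
      rw [Matrix.mul_diagonal]
      exact (hte _ ⟨(u, i, j), ⟨hu, Set.mem_univ _⟩, rfl⟩).2

/-- elements of principal ideals -/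
theorem exists_sum {B : Type} [Ring B] {w z : B} (hz : z ∈ TwoSidedIdeal.span {w}) :
    ∃ (m : ℕ) (a b : Fin m → B), z = ∑ i, a i * w * b i := by
  rw [TwoSidedIdeal.mem_span_iff_mem_addSubgroup_closure] at hz
  refine AddSubgroup.closure_induction (p := fun z _ => ∃ (m : ℕ) (a b : Fin m → B),
    z = ∑ i, a i * w * b i) ?_ ?_ ?_ ?_ hz
  · rintro _ ⟨_, ⟨a, _, w', hw', rfl⟩, b, _, rfl⟩
    rw [Set.mem_singleton_iff.1 hw']
    exact ⟨1, fun _ => a, fun _ => b, by simp⟩
  · exact ⟨0, fun _ => 0, fun _ => 0, by simp⟩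
  · rintro x y _ _ ⟨m, a, b, rfl⟩ ⟨m', a', b', rfl⟩
    refine ⟨m + m', Fin.append a a', Fin.append b b', ?_⟩
    rw [Fin.sum_univ_add]
    simp
  · rintro x _ ⟨m, a, b, rfl⟩
    exact ⟨m, fun i => - a i, b, by simp⟩

/-- idempotents in principal ideals -/
theorem corner_of_span (hC : Closed C) {B : Type} [Ring B] {w e : B} (hw : w * w = w)
    (he : e * e = e) (hz : e ∈ TwoSidedIdeal.span {w}) (h : CornerGLs C w) : CornerGLs C e := by
  obtain ⟨m, a, b, hab⟩ := exists_sum hz
  refine morita hC (ι := Fin m) e w hw (fun i => e * a i * w) (fun i => w * b i * e)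
    (fun i => by rw [mul_assoc, hw]) (fun i => by rw [← mul_assoc, ← mul_assoc, hw]) ?_ h
  have h1 : ∀ i, e * a i * w * (w * b i * e) = e * (a i * w * b i) * e := by
    intro i
    have : e * a i * w * (w * b i * e) = e * a i * (w * w) * b i * e := by noncomm_ring
    rw [this, hw]
    noncomm_ring
  simp_rw [h1]
  rw [← Finset.sum_mul, ← Finset.mul_sum, ← hab, he, he]

theorem corner_zero (hC : Closed C) {A : Type} [Ring A] : CornerGLs C (0 : A) := by
  intro n
  refine hC.of_injective _ (Multiplicative ℤ) 1 ?_ hC.int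
  have h0 : ∀ u : cGL n (0 : A), u = 1 := by
    intro u
    have h1 := u.2.1
    have h2 : dg n (0 : A) = 0 := by
      ext i j
      simp [Matrix.diagonal_apply]
    rw [h2, zero_mul] at h1
    apply Subtype.ext
    apply Units.ext
    exact (sub_eq_zero.1 h1.symm)
  intro x y _
  rw [h0 x, h0 y]

/-- the union of a chain of ideals -/
theorem chain_union {A : Type} [Ring A] (c : Set (TwoSidedIdeal A)) (hc : IsChain (· ≤ ·) c)
    (hne : c.Nonempty) : ∃ J : TwoSidedIdeal A, ∀ a, a ∈ J ↔ ∃ I ∈ c, a ∈ I := by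
  have hdir : ∀ I ∈ c, ∀ I' ∈ c, ∃ J ∈ c, I ≤ J ∧ I' ≤ J := by
    intro I hI I' hI'
    rcases hc.total hI hI' with h | h
    · exact ⟨I', hI', h, le_rfl⟩
    · exact ⟨I, hI, le_rfl, h⟩
  refine ⟨TwoSidedIdeal.mk' {a | ∃ I ∈ c, a ∈ I} ?_ ?_ ?_ ?_ ?_, fun a => ?_⟩
  · obtain ⟨I, hI⟩ := hne
    exact ⟨I, hI, I.zero_mem⟩
  · rintro x y ⟨I, hI, hx⟩ ⟨I', hI', hy⟩
    obtain ⟨J, hJ, h1, h2⟩ := hdir I hI I' hI'
    exact ⟨J, hJ, J.add_mem (h1 hx) (h2 hy)⟩
  · rintro x ⟨I, hI, hx⟩
    exact ⟨I, hI, I.neg_mem hx⟩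
  · rintro x y ⟨I, hI, hy⟩
    exact ⟨I, hI, I.mul_mem_left _ _ hy⟩
  · rintro x y ⟨I, hI, hx⟩
    exact ⟨I, hI, I.mul_mem_right _ _ hx⟩
  · rw [TwoSidedIdeal.mem_mk']
    rfl

/-- For every ideal `J` below `I` and different from `I` there is a nonzero idempotent `e` of `A / J` in
the image of `I` such that all `GL_n(e (A / J) e)` are in `C`. -/
def Scattered (C : ∀ (G : Type) [Group G], Prop) {A : Type} [Ring A] (I : TwoSidedIdeal A) : Prop :=
  ∀ J : TwoSidedIdeal A, J < I → ∃ x ∈ I, x ∉ J ∧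
    RingCon.mk' J.ringCon x * RingCon.mk' J.ringCon x = RingCon.mk' J.ringCon x ∧
    CornerGLs C (RingCon.mk' J.ringCon x)

/-- **the corners of scattered ideals** -/
theorem corners (hC : ClosedE C) {A : Type} [Ring A] (I : TwoSidedIdeal A)
    (hI : ∀ J ≤ I, LocalUnits J) (hS : Scattered C I) :
    ∀ e ∈ I, e * e = e → CornerGLs C e := by
  obtain ⟨J, hJ⟩ := zorn_le₀ {J : TwoSidedIdeal A | J ≤ I ∧ ∀ e ∈ J, e * e = e → CornerGLs C e} (by
    intro c hc hch
    rcases c.eq_empty_or_nonempty with rfl | hne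
    · refine ⟨⊥, ⟨bot_le, fun e he _ => ?_⟩, fun z hz => absurd hz (Set.notMem_empty z)⟩
      have : e = 0 := by rwa [TwoSidedIdeal.mem_bot] at he
      rw [this]
      exact corner_zero hC.base
    · obtain ⟨J, hJ⟩ := chain_union c hch hne
      refine ⟨J, ⟨fun a ha => ?_, fun e he hee => ?_⟩, fun z hz a ha => (hJ a).2 ⟨z, hz, ha⟩⟩
      · obtain ⟨L, hL, haL⟩ := (hJ a).1 ha
        exact (hc hL).1 haL
      · obtain ⟨L, hL, heL⟩ := (hJ e).1 he
        exact (hc hL).2 e heL hee)
  obtain ⟨hJI, hJc⟩ := hJ.prop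
  by_cases hJe : J = I
  · rw [← hJe]; exact hJc
  exfalso
  obtain ⟨x, hxI, hxJ, hxx, hxC⟩ := hS J (lt_of_le_of_ne hJI hJe)
  let π : A →+* J.ringCon.Quotient := RingCon.mk' J.ringCon
  have hπ : Function.Surjective π := RingCon.mk'_surjective _
  have hker : ∀ a, π a = 0 ↔ a ∈ J := by
    intro a
    rw [TwoSidedIdeal.mem_iff]
    constructor
    · intro h
      exact (RingCon.eq _).1 (h.trans (map_zero π).symm)
    · intro h
      exact ((RingCon.eq _).2 h).trans (map_zero π)
  let J' : TwoSidedIdeal A := TwoSidedIdeal.comap π (TwoSidedIdeal.span {π x})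
  have hJ'm : ∀ a, a ∈ J' ↔ π a ∈ TwoSidedIdeal.span {π x} := fun a => TwoSidedIdeal.mem_comap π
  have hJJ' : J ≤ J' := by
    intro a ha
    rw [hJ'm, (hker a).2 ha]
    exact TwoSidedIdeal.zero_mem _
  have hJ'I : J' ≤ I := by
    intro a ha
    rw [hJ'm] at ha
    obtain ⟨m, b, c, hbc⟩ := exists_sum ha
    choose b' hb' using fun i => hπ (b i)
    choose c' hc' using fun i => hπ (c i)
    have h1 : π (a - ∑ i, b' i * x * c' i) = 0 := by
      rw [map_sub, hbc, map_sum]
      simp_rw [map_mul, hb', hc']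
      exact sub_self _
    have h2 : a - ∑ i, b' i * x * c' i ∈ I := hJI ((hker _).1 h1)
    have h3 : ∑ i, b' i * x * c' i ∈ I := by
      refine TwoSidedIdeal.finsetSum_mem _ _ _ fun i _ => ?_
      exact I.mul_mem_right _ _ (I.mul_mem_left _ _ hxI)
    have h4 := I.add_mem h2 h3
    rwa [sub_add_cancel] at h4
  have hP : J' ∈ {J : TwoSidedIdeal A | J ≤ I ∧ ∀ e ∈ J, e * e = e → CornerGLs C e} := by
    refine ⟨hJ'I, fun e he hee => ?_⟩
    refine ext_corner hC π (corner_of_span hC.base hxx (by rw [← map_mul, hee])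
      ((hJ'm e).1 he) hxC) ?_
    intro T hT hTπ
    obtain ⟨f, hf, hff, hfT⟩ := hI J hJI T hT (fun t ht => (hker t).1 (hTπ t ht))
    exact ⟨f, hff, hJc f hf hff, hfT⟩
  have h5 : J' ≤ J := hJ.le_of_ge hP hJJ'
  exact hxJ (h5 ((hJ'm x).2 (TwoSidedIdeal.subset_span rfl)))

/-- the elements of the ideal are von Neumann regular -/
def Regular {A : Type} [Ring A] (I : TwoSidedIdeal A) : Prop := ∀ a ∈ I, ∃ x, a * x * a = a

theorem left_unit {A : Type} [Ring A] {I : TwoSidedIdeal A} (hI : Regular I) (T : Finset A)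
    (hT : ∀ t ∈ T, t ∈ I) : ∃ f ∈ I, f * f = f ∧ ∀ t ∈ T, f * t = t := by
  classical
  induction T using Finset.induction_on with
  | empty => exact ⟨0, I.zero_mem, mul_zero 0, fun t ht => absurd ht (Finset.notMem_empty t)⟩
  | insert a T ha ih =>
    obtain ⟨f, hfI, hff, hfT⟩ := ih fun t ht => hT t (Finset.mem_insert_of_mem ht)
    have haI : a ∈ I := hT a (Finset.mem_insert_self a T)
    obtain ⟨b, hb⟩ : ∃ b, b = a - f * a := ⟨_, rfl⟩
    have hbI : b ∈ I := by
      rw [hb]
      exact I.sub_mem haI (I.mul_mem_left _ _ haI)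
    obtain ⟨x, hx⟩ := hI b hbI
    have hfb : f * b = 0 := by rw [hb, mul_sub, ← mul_assoc, hff, sub_self]
    obtain ⟨g, hg⟩ : ∃ g, g = b * x * (1 - f) := ⟨_, rfl⟩
    have hgI : g ∈ I := by
      rw [hg]
      exact I.mul_mem_right _ _ (I.mul_mem_right _ _ hbI)
    have h1f : (1 - f) * f = 0 := by rw [sub_mul, one_mul, hff, sub_self]
    have hgf : g * f = 0 := by rw [hg, mul_assoc, h1f, mul_zero]
    have hfg : f * g = 0 := by rw [hg, ← mul_assoc, ← mul_assoc, hfb, zero_mul, zero_mul]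
    have hgb : g * b = b := by
      rw [hg, mul_assoc, sub_mul, one_mul, hfb, sub_zero, hx]
    have hgg : g * g = g := by
      conv_lhs => rw [hg]
      have : b * x * (1 - f) * (b * x * (1 - f)) = b * x * ((1 - f) * b) * x * (1 - f) := by
        noncomm_ring
      rw [this, sub_mul, one_mul, hfb, sub_zero, hx, hg]
    refine ⟨f + g, I.add_mem hfI hgI, ?_, ?_⟩
    · rw [mul_add, add_mul, add_mul, hff, hgf, hfg, hgg, add_zero, zero_add]
    · intro t ht
      rcases Finset.mem_insert.1 ht with rfl | ht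
      · have h2 : t = f * t + b := by rw [hb]; abel
        have h3 : (f + g) * (f * t) = f * t := by
          rw [add_mul, ← mul_assoc, ← mul_assoc, hff, hgf, zero_mul, add_zero]
        conv_lhs => rw [h2]
        rw [mul_add, h3, add_mul, hfb, zero_add, hgb, ← h2]
      · have h3 : f * t = t := hfT t ht
        rw [add_mul]
        have h4 : g * t = 0 := by rw [← h3, ← mul_assoc, hgf, zero_mul]
        rw [h4, h3, add_zero]

theorem right_unit {A : Type} [Ring A] {I : TwoSidedIdeal A} (hI : Regular I) (T : Finset A)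
    (hT : ∀ t ∈ T, t ∈ I) : ∃ f ∈ I, f * f = f ∧ ∀ t ∈ T, t * f = t := by
  classical
  induction T using Finset.induction_on with
  | empty => exact ⟨0, I.zero_mem, mul_zero 0, fun t ht => absurd ht (Finset.notMem_empty t)⟩
  | insert a T ha ih =>
    obtain ⟨f, hfI, hff, hfT⟩ := ih fun t ht => hT t (Finset.mem_insert_of_mem ht)
    have haI : a ∈ I := hT a (Finset.mem_insert_self a T)
    obtain ⟨b, hb⟩ : ∃ b, b = a - a * f := ⟨_, rfl⟩
    have hbI : b ∈ I := by
      rw [hb]
      exact I.sub_mem haI (I.mul_mem_right _ _ haI)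
    obtain ⟨x, hx⟩ := hI b hbI
    have hbf : b * f = 0 := by rw [hb, sub_mul, mul_assoc, hff, sub_self]
    obtain ⟨g, hg⟩ : ∃ g, g = (1 - f) * x * b := ⟨_, rfl⟩
    have hgI : g ∈ I := by
      rw [hg]
      exact I.mul_mem_left _ _ hbI
    have h1f : f * (1 - f) = 0 := by rw [mul_sub, mul_one, hff, sub_self]
    have hfg : f * g = 0 := by rw [hg, ← mul_assoc, ← mul_assoc, h1f, zero_mul, zero_mul]
    have hgf : g * f = 0 := by rw [hg, mul_assoc, hbf, mul_zero]
    have hbg : b * g = b := by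
      rw [hg, ← mul_assoc, ← mul_assoc, mul_sub, mul_one, hbf, sub_zero, hx]
    have hgg : g * g = g := by
      conv_lhs => rw [hg]
      have : (1 - f) * x * b * ((1 - f) * x * b) = (1 - f) * x * (b * (1 - f) * x * b) := by
        noncomm_ring
      rw [this, mul_sub, mul_one, hbf, sub_zero, hx, hg]
    refine ⟨f + g, I.add_mem hfI hgI, ?_, ?_⟩
    · rw [mul_add, add_mul, add_mul, hff, hgf, hfg, hgg, add_zero, zero_add]
    · intro t ht
      rcases Finset.mem_insert.1 ht with rfl | ht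
      · have h2 : t = t * f + b := by rw [hb]; abel
        have h3 : (t * f) * (f + g) = t * f := by
          rw [mul_add, mul_assoc, mul_assoc, hff, hfg, mul_zero, add_zero]
        conv_lhs => rw [h2]
        rw [add_mul, h3, mul_add, hbf, zero_add, hbg, ← h2]
      · have h3 : t * f = t := hfT t ht
        rw [mul_add]
        have h4 : t * g = 0 := by rw [← h3, mul_assoc, hfg, mul_zero]
        rw [h4, h3, add_zero]

/-- **regular ideals have local units** -/
theorem localUnits_of_regular {A : Type} [Ring A] {I : TwoSidedIdeal A} (hI : Regular I) :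
    LocalUnits I := by
  classical
  intro T hT hTI
  obtain ⟨f, hfI, hff, hfT⟩ := left_unit hI hT.toFinset (fun t ht => hTI t (hT.mem_toFinset.1 ht))
  obtain ⟨k, hkI, hkk, hkT⟩ := right_unit hI (insert f hT.toFinset) (by
    intro t ht
    rcases Finset.mem_insert.1 ht with rfl | ht
    · exact hfI
    · exact hTI t (hT.mem_toFinset.1 ht))
  have hfk : f * k = f := hkT f (Finset.mem_insert_self _ _)
  have hef : (f + k - k * f) * f = f := by
    have : (f + k - k * f) * f = f * f + k * f - k * (f * f) := by noncomm_ring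
    rw [this, hff]; abel
  have hke : k * (f + k - k * f) = k := by
    have : k * (f + k - k * f) = k * f + k * k - (k * k) * f := by noncomm_ring
    rw [this, hkk]; abel
  refine ⟨f + k - k * f, I.sub_mem (I.add_mem hfI hkI) (I.mul_mem_left _ _ hfI), ?_, ?_⟩
  · have : (f + k - k * f) * (f + k - k * f) =
        (f + k - k * f) * f + (f + k - k * f) * k - (f + k - k * f) * k * f := by noncomm_ring
    have h2 : (f + k - k * f) * k = f + k - k * f := by
      have : (f + k - k * f) * k = f * k + k * k - k * (f * k) := by noncomm_ring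
      rw [this, hfk, hkk]
    rw [this, h2, hef]
    abel
  · intro t ht
    have h1 : f * t = t := hfT t (hT.mem_toFinset.2 ht)
    have h2 : t * k = t := hkT t (Finset.mem_insert_of_mem (hT.mem_toFinset.2 ht))
    refine ⟨?_, ?_⟩
    · rw [← h1, ← mul_assoc, hef]
    · rw [← h2, mul_assoc, hke]

end Pool.Agent.H40E9.RR
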